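import Pool.Agent.helper7.PQ.Spec

/-!
# Project pq:, module CLR: the class of `n`
-/

set_option autoImplicit false

open Finset PowerSeries

noncomputable section

namespace Pool.Agent.PQ

open Pool.Agent.EP

theorem CLR_aux (B Q₁ Q₂ P P' n : ℕ) (h : RelP B Q₁ Q₂ P P' n) :
    24 * n ≡ Q₁ * P * (Q₂ * P') + 1 [MOD B] := by
  obtain ⟨u, ⟨hlt, h1⟩ | ⟨hlt, h1⟩⟩ := h
  · obtain ⟨w, hw⟩ := Nat.exists_eq_add_of_le hlt.le
    have h2 : Q₂ * P' - B * u ^ 2 = w := by omega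
    rw [h2] at h1
    have h3 : Q₁ * P * (Q₂ * P') + 1 = 24 * n + B * (Q₁ * P * u ^ 2) := by
      rw [h1, hw]; ring
    rw [h3]
    unfold Nat.ModEq
    rw [Nat.add_mul_mod_self_left]
  · obtain ⟨w, hw⟩ := Nat.exists_eq_add_of_le hlt.le
    have h2 : Q₁ * P - B * u ^ 2 = w := by omega
    rw [h2] at h1
    have h3 : Q₁ * P * (Q₂ * P') + 1 = 24 * n + B * (u ^ 2 * (Q₂ * P')) := by
      rw [h1, hw]; ring
    rw [h3]
    unfold Nat.ModEq
    rw [Nat.add_mul_mod_self_left]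

theorem CLR : CLR_stmt := by
  intro b i Q₁ Q₂ P P' n n' hb hrel hmod
  have h1 : 24 * n ≡ 24 * n' [MOD 2 ^ b] := (CLR_aux _ _ _ _ _ _ hrel).trans hmod
  have hd : 8 * 2 ^ i ∣ 2 ^ b := by
    have : (8 : ℕ) * 2 ^ i = 2 ^ (i + 3) := by rw [pow_add]; ring
    rw [this]
    exact pow_dvd_pow 2 hb
  have h2 : 8 * (3 * n) ≡ 8 * (3 * n') [MOD 8 * 2 ^ i] := by
    have h3 := h1.of_dvd hd
    have e1 : 24 * n = 8 * (3 * n) := by ring
    have e2 : 24 * n' = 8 * (3 * n') := by ring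
    rw [e1, e2] at h3
    exact h3
  have h3 : 3 * n ≡ 3 * n' [MOD 2 ^ i] := Nat.ModEq.mul_left_cancel' (by norm_num) h2
  have hc : Nat.gcd (2 ^ i) 3 = 1 := Nat.Coprime.pow_left i (by norm_num)
  exact Nat.ModEq.cancel_left_of_coprime hc h3

end Pool.Agent.PQ
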